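import Pool.Agent.W996.EC.Cv

/-!
# EC-END: ends of logarithms, positive spanning
-/

set_option autoImplicit false
set_option linter.all false

namespace Pool.Agent.W337.EC

open Pool.Agent.W996.EC Filter Topology Metric Polynomial

lemma end1 (G : ℂ → ℂ) (hG : AnalyticAt ℂ G 0) (h0 : G 0 ≠ 0) :
    ∃ (r C : ℝ) (H : ℂ → ℂ), 0 < r ∧ 0 ≤ C ∧ DifferentiableOn ℂ H (ball 0 r) ∧
      (∀ z ∈ ball (0 : ℂ) r, ‖H z‖ ≤ C * ‖z‖) ∧
      ∀ z ∈ ball (0 : ℂ) r, Complex.exp (H z) * G 0 = G z := by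
  set H : ℂ → ℂ := fun z => Complex.log (G z / G 0) with hH
  have hA : AnalyticAt ℂ H 0 := by
    refine (hG.div analyticAt_const h0).clog ?_
    rw [Pi.div_apply, div_self h0]
    simp [Complex.slitPlane]
  have hH0 : H 0 = 0 := by simp [hH, div_self h0]
  have e1 : ∀ᶠ z in 𝓝 (0 : ℂ), AnalyticAt ℂ H z := hA.eventually_analyticAt
  have e2 : ∀ᶠ z in 𝓝 (0 : ℂ), G z ≠ 0 := hG.continuousAt.eventually_ne h0
  have e3 := hA.differentiableAt.isBigO_sub
  obtain ⟨C, hC⟩ := e3.bound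
  obtain ⟨r, hr, hball⟩ := Metric.eventually_nhds_iff_ball.1 (e1.and (e2.and hC))
  refine ⟨r, |C|, H, hr, abs_nonneg C, fun z hz => (hball z hz).1.differentiableAt.differentiableWithinAt,
    fun z hz => ?_, fun z hz => ?_⟩
  · have h := (hball z hz).2.2
    rw [hH0, sub_zero, sub_zero] at h
    exact h.trans (mul_le_mul_of_nonneg_right (le_abs_self C) (norm_nonneg z))
  · have h := (hball z hz).2.1
    rw [hH]
    simp only
    rw [Complex.exp_log (div_ne_zero h h0), div_mul_cancel₀ _ h0]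

lemma place_mono {T : Set (ℂ × ℂ)} {t : ℂ → ℂ × ℂ} {c0 c1 : ℝ} (h : IsPlace T t c0)
    (hc : c1 ≤ c0) : IsPlace T t c1 := by
  obtain ⟨h1, h2, h3, h4⟩ := h
  have hsub : {w : ℂ | w.re < c1} ⊆ {w : ℂ | w.re < c0} := fun w hw => lt_of_lt_of_le hw hc
  refine ⟨fun w hw => h1 w (lt_of_lt_of_le hw hc), h2.mono hsub, h3.mono hsub, fun g hg => ?_⟩
  rcases h4 g hg with h5 | ⟨l, G, c', hG, hG0, hc', h5⟩
  · exact Or.inl fun w hw => h5 w (lt_of_lt_of_le hw hc)
  · exact Or.inr ⟨l, G, min c' c1, hG, hG0, min_le_right _ _, fun w hw =>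
      h5 w (lt_of_lt_of_le hw (min_le_left _ _))⟩

theorem t_end : S_end := by
  classical
  intro n T R t c0 hR hR0 hpl
  have hpl' := hpl
  obtain ⟨h1, h2, h3, h4⟩ := hpl
  have hex : ∀ i, ∃ (l : ℤ) (G : ℂ → ℂ) (c1 : ℝ), AnalyticAt ℂ G 0 ∧ G 0 ≠ 0 ∧ c1 ≤ c0 ∧
      ∀ w : ℂ, w.re < c1 → R i (t w) = Complex.exp (l * w) * G (Complex.exp w) := by
    intro i
    rcases h4 (R i) (hR i) with h5 | h5
    · exfalso
      have hw : ((c0 - 1 : ℝ) : ℂ).re < c0 := by simp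
      exact hR0 i _ (h1 _ hw) (h5 _ hw)
    · exact h5
  choose l G c hG hG0 hc hRt using hex
  choose r C H hr hC hHd hHb hHe using fun i => end1 (G i) (hG i) (hG0 i)
  -- a common bound
  obtain ⟨c1, hc1⟩ : ∃ c1 : ℝ, c1 ≤ c0 ∧ ∀ i, c1 ≤ c i ∧ Real.exp c1 ≤ r i := by
    refine ⟨min c0 (if h : Nonempty (Fin n) then
      Finset.univ.inf' (Finset.univ_nonempty_iff.2 h) (fun i => min (c i) (Real.log (r i))) else c0),
      min_le_left _ _, fun i => ?_⟩
    have hne : Nonempty (Fin n) := ⟨i⟩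
    rw [dif_pos hne]
    have h5 : Finset.univ.inf' (Finset.univ_nonempty_iff.2 hne) (fun i => min (c i) (Real.log (r i))) ≤
        min (c i) (Real.log (r i)) := Finset.inf'_le _ (Finset.mem_univ i)
    refine ⟨(min_le_right _ _).trans (h5.trans (min_le_left _ _)), ?_⟩
    rw [← Real.le_log_iff_exp_le (hr i)]
    exact (min_le_right _ _).trans (h5.trans (min_le_right _ _))
  obtain ⟨hc10, hc1⟩ := hc1
  have hin : ∀ i, ∀ w : ℂ, w.re < c1 → Complex.exp w ∈ ball (0 : ℂ) (r i) := by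
    intro i w hw
    rw [mem_ball_zero_iff, Complex.norm_exp]
    exact lt_of_lt_of_le (Real.exp_lt_exp.2 hw) (hc1 i).2
  refine ⟨c1, l, fun i => Complex.log (G i 0), fun w i => H i (Complex.exp w), ∑ i, C i, hc10,
    place_mono hpl' hc10, fun i => ?_, fun w hw => ?_, fun w hw i => ?_⟩
  · refine (hHd i).comp Complex.differentiable_exp.differentiableOn fun w hw => hin i w hw
  · have hS : 0 ≤ ∑ i, C i := Finset.sum_nonneg fun i _ => hC i
    rw [pi_norm_le_iff_of_nonneg (by positivity)]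
    intro i
    refine (hHb i _ (hin i w hw)).trans ?_
    rw [Complex.norm_exp]
    exact mul_le_mul_of_nonneg_right (Finset.single_le_sum (fun j _ => hC j) (Finset.mem_univ i))
      (Real.exp_nonneg _)
  · rw [hRt i w (lt_of_lt_of_le hw (hc1 i).1), Complex.exp_add, Complex.exp_add,
      Complex.exp_log (hG0 i), mul_assoc]
    congr 1
    rw [mul_comm]
    exact hHe i _ (hin i w hw)

/-! ### positive spanning -/

lemma clear_den {n : ℕ} (m' : Fin n → ℚ) : ∃ (D : ℕ) (m : Fin n → ℤ), 0 < D ∧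
    ∀ i, (m i : ℚ) = D * m' i := by
  refine ⟨∏ i, (m' i).den, fun i => (m' i).num * ((∏ i, (m' i).den) / (m' i).den : ℕ),
    Finset.prod_pos fun i _ => (m' i).pos, fun i => ?_⟩
  have h1 : (m' i).den ∣ ∏ i, (m' i).den := Finset.dvd_prod_of_mem _ (Finset.mem_univ i)
  obtain ⟨e, he⟩ := h1
  show (((m' i).num * (((∏ i, (m' i).den) / (m' i).den : ℕ) : ℤ) : ℤ) : ℚ) = ((∏ i, (m' i).den : ℕ) : ℚ) * m' i
  rw [he, Nat.mul_div_cancel_left _ (m' i).pos]
  push_cast
  have h2 : (m' i) * (m' i).den = (m' i).num := Rat.mul_den_eq_num (m' i)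
  rw [← h2]
  ring

/-- rational approximation of a functional which is nonnegative on integer vectors -/
lemma rat_approx {n K : ℕ} (l : Fin n → ℝ) (hl : l ≠ 0) (a : Fin K → Fin n → ℤ)
    (h : ∀ k, 0 ≤ ∑ i, l i * (a k i : ℝ)) :
    ∃ m : Fin n → ℤ, m ≠ 0 ∧ ∀ k, 0 ≤ ∑ i, m i * a k i := by
  classical
  set W : Submodule ℚ ℝ := Submodule.span ℚ (Set.range l) with hW
  haveI : FiniteDimensional ℚ W := FiniteDimensional.span_of_finite ℚ (Set.finite_range l)
  set b := Module.finBasis ℚ W with hb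
  set s := Module.finrank ℚ W with hs
  set lW : Fin n → W := fun i => ⟨l i, Submodule.subset_span ⟨i, rfl⟩⟩ with hlW
  set q : Fin n → Fin s → ℚ := fun i j => b.repr (lW i) j with hq
  set θ : Fin s → ℝ := fun j => ((b j : W) : ℝ) with hθ
  have hli : ∀ i, l i = ∑ j, (q i j : ℝ) * θ j := by
    intro i
    have h1 := congrArg (fun x : W => (x : ℝ)) (b.sum_repr (lW i))
    simp only [Submodule.coe_sum, Submodule.coe_smul] at h1
    rw [← show ((lW i : W) : ℝ) = l i from rfl, ← h1]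
    refine Finset.sum_congr rfl fun j _ => ?_
    rw [Rat.smul_def]
  -- the rational numbers c k j
  set c : Fin K → Fin s → ℚ := fun k j => ∑ i, q i j * (a k i : ℚ) with hc
  have hla : ∀ (x : Fin s → ℝ) (k : Fin K), ∑ i, (∑ j, (q i j : ℝ) * x j) * (a k i : ℝ) =
      ∑ j, (c k j : ℝ) * x j := by
    intro x k
    simp only [hc, Finset.sum_mul]
    rw [Finset.sum_comm]
    refine Finset.sum_congr rfl fun j _ => ?_
    push_cast
    rw [Finset.sum_mul]
    exact Finset.sum_congr rfl fun i _ => by ring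
  have hzero : ∀ k, ∑ i, l i * (a k i : ℝ) = 0 → ∀ j, c k j = 0 := by
    intro k hk
    have h1 : ∑ j, (c k j : ℝ) * θ j = 0 := by
      rw [← hla θ k, ← hk]
      exact Finset.sum_congr rfl fun i _ => by rw [hli i]
    have h2 : ∑ j, c k j • b j = 0 := by
      apply Subtype.ext
      rw [Submodule.coe_sum, Submodule.coe_zero, ← h1]
      refine Finset.sum_congr rfl fun j _ => ?_
      rw [Submodule.coe_smul, Rat.smul_def]
    exact fun j => Fintype.linearIndependent_iff.1 b.linearIndependent (c k) h2 j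
  obtain ⟨i0, hi0⟩ : ∃ i, l i ≠ 0 := by
    by_contra hcon
    push Not at hcon
    exact hl (funext hcon)
  -- the open set
  set U : Set (Fin s → ℝ) := {x | (∀ k, 0 < ∑ i, l i * (a k i : ℝ) → 0 < ∑ j, (c k j : ℝ) * x j) ∧
    ∑ j, (q i0 j : ℝ) * x j ≠ 0} with hU
  have hUo : IsOpen U := by
    refine IsOpen.inter ?_ ?_
    · have : {x : Fin s → ℝ | ∀ k, 0 < ∑ i, l i * (a k i : ℝ) → 0 < ∑ j, (c k j : ℝ) * x j} =
          ⋂ k : Fin K, {x | 0 < ∑ i, l i * (a k i : ℝ) → 0 < ∑ j, (c k j : ℝ) * x j} := by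
        ext x; simp
      show IsOpen {x : Fin s → ℝ | ∀ k, 0 < ∑ i, l i * (a k i : ℝ) → 0 < ∑ j, (c k j : ℝ) * x j}
      rw [this]
      refine isOpen_iInter_of_finite fun k => ?_
      by_cases hk : 0 < ∑ i, l i * (a k i : ℝ)
      · simp only [hk, forall_true_left]
        exact isOpen_lt continuous_const (by fun_prop)
      · simp only [hk, false_imp_iff, Set.setOf_true]
        exact isOpen_univ
    · show IsOpen {x : Fin s → ℝ | ∑ j, (q i0 j : ℝ) * x j ≠ 0}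
      exact isOpen_ne_fun (by fun_prop) continuous_const
  have hθU : θ ∈ U := by
    refine ⟨fun k hk => ?_, ?_⟩
    · rw [← hla θ k]
      have : ∑ i, (∑ j, (q i j : ℝ) * θ j) * (a k i : ℝ) = ∑ i, l i * (a k i : ℝ) :=
        Finset.sum_congr rfl fun i _ => by rw [hli i]
      rw [this]; exact hk
    · rw [← hli i0]; exact hi0
  have hdense : DenseRange (Pi.map (fun (_ : Fin s) (x : ℚ) => (x : ℝ))) :=
    DenseRange.piMap fun _ => Rat.denseRange_cast
  obtain ⟨_, hxU, x, rfl⟩ := hdense.inter_open_nonempty U hUo ⟨θ, hθU⟩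
  obtain ⟨D, m, hD, hm⟩ := clear_den (fun i => ∑ j, q i j * x j)
  have hDR : (0 : ℝ) < D := by exact_mod_cast hD
  have hmR : ∀ i, (m i : ℝ) = D * ∑ j, (q i j : ℝ) * (x j : ℝ) := by
    intro i
    have := hm i
    have h2 : ((m i : ℚ) : ℝ) = ((D * ∑ j, q i j * x j : ℚ) : ℝ) := by rw [this]
    push_cast at h2
    exact h2
  refine ⟨m, ?_, fun k => ?_⟩
  · intro hm0
    have h1 := hmR i0
    rw [hm0] at h1
    simp only [Pi.zero_apply, Int.cast_zero] at h1
    rcases mul_eq_zero.1 h1.symm with h2 | h2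
    · exact hDR.ne' h2
    · exact hxU.2 h2
  · have h1 : ((∑ i, m i * a k i : ℤ) : ℝ) = D * ∑ j, (c k j : ℝ) * (x j : ℝ) := by
      push_cast
      rw [← hla (fun j => (x j : ℝ)) k, Finset.mul_sum]
      exact Finset.sum_congr rfl fun i _ => by rw [hmR i]; ring
    have h2 : (0 : ℝ) ≤ ((∑ i, m i * a k i : ℤ) : ℝ) := by
      rw [h1]
      refine mul_nonneg hDR.le ?_
      rcases (h k).lt_or_eq with hk | hk
      · exact (hxU.1 k hk).le
      · refine le_of_eq ?_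
        symm
        refine Finset.sum_eq_zero fun j _ => ?_
        rw [hzero k hk.symm j]; simp
    exact_mod_cast h2

lemma reg_mul {T : Set (ℂ × ℂ)} {g g' : ℂ × ℂ → ℂ} (h : Reg T g) (h' : Reg T g') :
    Reg T (fun p => g p * g' p) := by
  obtain ⟨A, B, hAB⟩ := h
  obtain ⟨A', B', hAB'⟩ := h'
  refine ⟨A * A', B * B', fun p hp => ?_⟩
  obtain ⟨h1, h2⟩ := hAB p hp
  obtain ⟨h3, h4⟩ := hAB' p hp
  rw [evalEval_mul, evalEval_mul]
  refine ⟨mul_ne_zero h1 h3, ?_⟩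
  show g p * g' p = _
  rw [h2, h4]
  field_simp

lemma reg_one (T : Set (ℂ × ℂ)) : Reg T (fun _ => 1) := by
  refine ⟨1, 1, fun p hp => ?_⟩
  simp

lemma reg_zpow {T : Set (ℂ × ℂ)} {g : ℂ × ℂ → ℂ} (h : Reg T g) (h0 : ∀ p ∈ T, g p ≠ 0) (m : ℤ) :
    Reg T (fun p => g p ^ m) := by
  obtain ⟨A, B, hAB⟩ := h
  have hA : ∀ p ∈ T, A.evalEval p.1 p.2 ≠ 0 := by
    intro p hp hA
    apply h0 p hp
    rw [(hAB p hp).2, hA, zero_div]
  obtain ⟨k, rfl | rfl⟩ := m.eq_nat_or_neg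
  · refine ⟨A ^ k, B ^ k, fun p hp => ?_⟩
    obtain ⟨h1, h2⟩ := hAB p hp
    rw [evalEval_pow, evalEval_pow]
    refine ⟨pow_ne_zero _ h1, ?_⟩
    show g p ^ (k : ℤ) = _
    rw [h2, zpow_natCast, div_pow]
  · refine ⟨B ^ k, A ^ k, fun p hp => ?_⟩
    obtain ⟨h1, h2⟩ := hAB p hp
    rw [evalEval_pow, evalEval_pow]
    refine ⟨pow_ne_zero _ (hA p hp), ?_⟩
    show g p ^ (-(k : ℤ)) = _
    rw [h2, zpow_neg, zpow_natCast, div_pow, inv_div]

lemma reg_prod {T : Set (ℂ × ℂ)} {n : ℕ} {R : Fin n → ℂ × ℂ → ℂ} (h : ∀ i, Reg T (R i))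
    (h0 : ∀ i, ∀ p ∈ T, R i p ≠ 0) (m : Fin n → ℤ) (s : Finset (Fin n)) :
    Reg T (fun p => ∏ i ∈ s, R i p ^ m i) := by
  classical
  induction s using Finset.induction_on with
  | empty => simpa using reg_one T
  | insert i s hi ih =>
    simp only [Finset.prod_insert hi]
    exact reg_mul (reg_zpow (h i) (h0 i) (m i)) ih

theorem t_pos (h1 : S_end) (h2 : S_bdd) : S_pos := by
  intro n F h R hcov hind l hl
  obtain ⟨K, t, c0, hpl, hbd⟩ := h2 F h hcov
  obtain ⟨hreg, hne, hindep⟩ := hind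
  choose c1 a b hh C0 hc1 hend using fun k => h1 n (TT F h) R (t k) c0 hreg hne (hpl k)
  by_contra hcon
  push Not at hcon
  have h3 : ∀ k, 0 ≤ ∑ i, l i * (a k i : ℝ) := fun k =>
    hcon (t k) (c1 k) (a k) (b k) (hh k) (C0 k) (hend k)
  obtain ⟨m, hm0, hm⟩ := rat_approx l hl a h3
  apply hindep m hm0
  refine hbd (fun p => ∏ i, R i p ^ m i) (reg_prod hreg hne m Finset.univ) fun k => ?_
  obtain ⟨hp, hd, hhb, he⟩ := hend k
  have hmk : (0 : ℝ) ≤ ∑ i, (m i : ℝ) * (a k i : ℝ) := by exact_mod_cast hm k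
  refine ⟨Real.exp ((∑ i, (m i : ℝ) * (a k i : ℝ)) * c1 k + (∑ i, (m i : ℂ) * b k i).re +
    ∑ i, |(m i : ℝ)| * (|C0 k| * Real.exp (c1 k))), c1 k, fun w hw => ?_⟩
  have e1 : ∏ i, R i (t k w) ^ m i =
      Complex.exp (∑ i, (m i : ℂ) * ((a k i : ℂ) * w + b k i + hh k w i)) := by
    rw [Complex.exp_sum]
    refine Finset.prod_congr rfl fun i _ => ?_
    rw [← he w hw i, ← Complex.exp_int_mul]
  show ‖∏ i, R i (t k w) ^ m i‖ ≤ _
  rw [e1, Complex.norm_exp, Real.exp_le_exp]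
  have e2 : ∑ i, (m i : ℂ) * ((a k i : ℂ) * w + b k i + hh k w i) =
      ((∑ i, (m i : ℝ) * (a k i : ℝ) : ℝ) : ℂ) * w + ∑ i, (m i : ℂ) * b k i +
        ∑ i, (m i : ℂ) * hh k w i := by
    push_cast
    rw [Finset.sum_mul, ← Finset.sum_add_distrib, ← Finset.sum_add_distrib]
    exact Finset.sum_congr rfl fun i _ => by ring
  rw [e2, Complex.add_re, Complex.add_re, Complex.re_ofReal_mul]
  have hw' : w.re ≤ c1 k := le_of_lt hw
  have e3 : (∑ i, (m i : ℝ) * (a k i : ℝ)) * w.re ≤ (∑ i, (m i : ℝ) * (a k i : ℝ)) * c1 k :=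
    mul_le_mul_of_nonneg_left hw' hmk
  have e4 : (∑ i, (m i : ℂ) * hh k w i).re ≤ ∑ i, |(m i : ℝ)| * (|C0 k| * Real.exp (c1 k)) := by
    refine (Complex.re_le_norm _).trans ((norm_sum_le _ _).trans (Finset.sum_le_sum fun i _ => ?_))
    rw [norm_mul, Complex.norm_intCast]
    refine mul_le_mul_of_nonneg_left ?_ (abs_nonneg _)
    refine (norm_le_pi_norm (hh k w) i).trans ((hhb w hw).trans ?_)
    have h5 : Real.exp w.re ≤ Real.exp (c1 k) := Real.exp_le_exp.2 hw'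
    calc C0 k * Real.exp w.re ≤ |C0 k| * Real.exp w.re :=
          mul_le_mul_of_nonneg_right (le_abs_self _) (Real.exp_nonneg _)
      _ ≤ |C0 k| * Real.exp (c1 k) := mul_le_mul_of_nonneg_left h5 (abs_nonneg _)
  linarith

end Pool.Agent.W337.EC
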