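import Pool.Agent.W996.EC.Stm

/-!
# EC-EXP: exponential polynomials with two frequencies have a zero
-/

set_option autoImplicit false
set_option linter.all false

namespace Pool.Agent.W337.EC

open Pool.Agent.W996.EC Filter Topology Metric Complex Polynomial

/-- polynomials are bounded by exponentials -/
lemma poly_growth (Q : ℂ[X]) : ∃ A : ℝ, 0 ≤ A ∧ ∀ v : ℂ, ‖Q.eval v‖ ≤ A * Real.exp ‖v‖ := by
  refine ⟨∑ n ∈ Q.support, ‖Q.coeff n‖ * n.factorial, by positivity, fun v => ?_⟩
  rw [Polynomial.eval_eq_sum, Polynomial.sum_def, Finset.sum_mul]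
  refine (norm_sum_le _ _).trans (Finset.sum_le_sum fun n _ => ?_)
  rw [norm_mul, norm_pow, mul_assoc]
  refine mul_le_mul_of_nonneg_left ?_ (norm_nonneg _)
  have h := Real.pow_div_factorial_le_exp ‖v‖ (norm_nonneg v) n
  have hn : (0 : ℝ) < n.factorial := by exact_mod_cast n.factorial_pos
  rw [div_le_iff₀ hn] at h
  linarith

/-- the exponential polynomial -/
noncomputable def Psi (S : Finset ℤ) (Q : ℤ → ℂ[X]) (v : ℂ) : ℂ :=
  ∑ j ∈ S, (Q j).eval v * Complex.exp ((j : ℂ) * v)

lemma Psi_growth (S : Finset ℤ) (Q : ℤ → ℂ[X]) :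
    ∃ A B : ℝ, 0 < A ∧ 0 < B ∧ ∀ v : ℂ, ‖Psi S Q v‖ ≤ A * Real.exp (B * ‖v‖) := by
  choose a ha0 ha using fun j => poly_growth (Q j)
  set B : ℝ := 1 + ∑ j ∈ S, |(j : ℝ)| with hB
  have hBpos : 0 < B := by positivity
  refine ⟨∑ j ∈ S, a j + 1, B, by have := Finset.sum_nonneg (fun j (_ : j ∈ S) => ha0 j); linarith,
    hBpos, fun v => ?_⟩
  have h1 : ‖Psi S Q v‖ ≤ ∑ j ∈ S, a j * Real.exp (B * ‖v‖) := by
    refine (norm_sum_le _ _).trans (Finset.sum_le_sum fun j hj => ?_)
    rw [norm_mul, Complex.norm_exp]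
    have h2 : ((j : ℂ) * v).re ≤ |(j : ℝ)| * ‖v‖ := by
      have h3 := Complex.re_le_norm ((j : ℂ) * v)
      rw [norm_mul, Complex.norm_intCast] at h3
      exact h3
    have h4 : |(j : ℝ)| ≤ ∑ j ∈ S, |(j : ℝ)| :=
      Finset.single_le_sum (f := fun j : ℤ => |(j : ℝ)|) (fun i _ => abs_nonneg (i : ℝ)) hj
    calc ‖(Q j).eval v‖ * Real.exp ((j : ℂ) * v).re
        ≤ (a j * Real.exp ‖v‖) * Real.exp ((∑ j ∈ S, |(j : ℝ)|) * ‖v‖) := by
          apply mul_le_mul (ha j v) _ (Real.exp_nonneg _) (mul_nonneg (ha0 j) (Real.exp_nonneg _))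
          rw [Real.exp_le_exp]
          exact h2.trans (mul_le_mul_of_nonneg_right h4 (norm_nonneg v))
      _ = a j * Real.exp (B * ‖v‖) := by
          rw [mul_assoc, ← Real.exp_add, hB]; congr 2; ring
  rw [← Finset.sum_mul] at h1
  have := Real.exp_nonneg (B * ‖v‖)
  linarith

lemma Psi_hasDeriv (S : Finset ℤ) (Q : ℤ → ℂ[X]) (v : ℂ) :
    HasDerivAt (Psi S Q) (Psi S (fun j => derivative (Q j) + C (j : ℂ) * Q j) v) v := by
  unfold Psi
  refine HasDerivAt.fun_sum fun j _ => ?_
  have h1 := (Q j).hasDerivAt v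
  have h2 : HasDerivAt (fun v : ℂ => Complex.exp ((j : ℂ) * v)) (Complex.exp ((j : ℂ) * v) * (j : ℂ)) v := by
    have h3 : HasDerivAt (fun v : ℂ => (j : ℂ) * v) (j : ℂ) v := by
      simpa using (hasDerivAt_id v).const_mul (j : ℂ)
    exact h3.cexp
  refine (h1.mul h2).congr_deriv ?_
  rw [eval_add, eval_mul, eval_C]
  ring

lemma Psi_diff (S : Finset ℤ) (Q : ℤ → ℂ[X]) : Differentiable ℂ (Psi S Q) :=
  fun v => (Psi_hasDeriv S Q v).differentiableAt

/-- logarithm on a ball -/
lemma exists_log (h : ℂ → ℂ) (hd : Differentiable ℂ h) (hz : ∀ z, h z ≠ 0)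
    (R : ℝ) (hR : 0 < R) :
    ∃ g : ℂ → ℂ, g 0 = 0 ∧ (∀ z ∈ ball (0 : ℂ) R, HasDerivAt g (deriv h z / h z) z) ∧
      ∀ z ∈ ball (0 : ℂ) R, h 0 * exp (g z) = h z := by
  have hd' : Differentiable ℂ (deriv h) := fun z =>
    (hd.analyticAt z).deriv.differentiableAt
  have h1 : DifferentiableOn ℂ (fun z => deriv h z / h z) (ball 0 R) :=
    (hd'.div hd hz).differentiableOn
  obtain ⟨g, hg0, hg⟩ := (h1.isExactOn_ball).with_val_at 0 0
  refine ⟨g, hg0, hg, ?_⟩
  have h2 : ∀ z ∈ ball (0:ℂ) R, HasDerivAt (fun z => h z * exp (-g z)) 0 z := by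
    intro z hzR
    have h3 := (hd z).hasDerivAt.mul ((hg z hzR).neg.cexp)
    refine h3.congr_deriv ?_
    have := hz z
    field_simp
    ring
  have h3 : ∀ z ∈ ball (0:ℂ) R, h z * exp (-g z) = h 0 * exp (-g 0) := by
    intro z hzR
    refine isOpen_ball.is_const_of_deriv_eq_zero (convex_ball 0 R).isPreconnected
      (fun w hw => (h2 w hw).differentiableAt.differentiableWithinAt)
      (fun w hw => (h2 w hw).deriv) hzR (mem_ball_self hR)
  intro z hzR
  have h4 := h3 z hzR
  rw [hg0, neg_zero, exp_zero, mul_one, exp_neg] at h4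
  have h5 : exp (g z) ≠ 0 := exp_ne_zero _
  field_simp at h4
  rw [mul_comm]
  exact h4.symm

/-- the logarithmic derivative of a zero-free entire function of exponential type is constant -/
lemma logderiv_const (h : ℂ → ℂ) (hd : Differentiable ℂ h) (hz : ∀ z, h z ≠ 0) (A B : ℝ)
    (hA : 0 < A) (hB : 0 < B) (hgr : ∀ z, ‖h z‖ ≤ A * Real.exp (B * ‖z‖)) :
    ∃ α : ℂ, ∀ z, deriv h z = α * h z := by
  set f : ℂ → ℂ := fun z => deriv h z / h z with hf
  have hd' : Differentiable ℂ (deriv h) := fun z =>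
    (hd.analyticAt z).deriv.differentiableAt
  have hfd : Differentiable ℂ f := hd'.div hd hz
  have hh0 : 0 < ‖h 0‖ := norm_pos_iff.2 (hz 0)
  set L : ℝ := |Real.log (A / ‖h 0‖)| + 1 with hL
  have hLpos : 0 < L := by positivity
  have hbd : ∀ z, ‖f z‖ ≤ 16 * (L + B) := by
    intro z
    set R : ℝ := 4 * ‖z‖ + 1 with hR
    have hR1 : 1 ≤ R := by have := norm_nonneg z; linarith
    have hR0 : 0 < R := by linarith
    obtain ⟨g, hg0, hgd, hg⟩ := exists_log h hd hz R hR0
    set Mm : ℝ := L + B * R with hMm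
    have hM : 0 < Mm := by positivity
    have hmaps : Set.MapsTo g (ball 0 R) {w | w.re ≤ Mm} := by
      intro w hw
      have h1 := hgr w
      rw [← hg w hw, norm_mul, Complex.norm_exp] at h1
      have h2 : Real.exp (g w).re ≤ A / ‖h 0‖ * Real.exp (B * ‖w‖) := by
        rw [div_mul_eq_mul_div, le_div_iff₀ hh0]
        linarith
      have h3 : A / ‖h 0‖ * Real.exp (B * ‖w‖) = Real.exp (Real.log (A / ‖h 0‖) + B * ‖w‖) := by
        rw [Real.exp_add, Real.exp_log (by positivity)]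
      rw [h3, Real.exp_le_exp] at h2
      have h4 : ‖w‖ ≤ R := (mem_ball_zero_iff.1 hw).le
      have h5 := mul_le_mul_of_nonneg_left h4 hB.le
      have h6 := le_abs_self (Real.log (A / ‖h 0‖))
      show (g w).re ≤ _
      rw [hMm, hL]
      linarith
    have hgdO : DifferentiableOn ℂ g (ball 0 R) := fun w hw =>
      (hgd w hw).differentiableAt.differentiableWithinAt
    -- bound of g on the ball of radius R/2
    have hgb : ∀ w : ℂ, ‖w‖ ≤ R / 2 → ‖g w‖ ≤ 2 * Mm := by
      intro w hw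
      have hwR : w ∈ ball (0 : ℂ) R := mem_ball_zero_iff.2 (by linarith)
      have h5 := borelCaratheodory_zero hM hgdO hmaps hR0 hwR hg0
      refine h5.trans ?_
      rw [div_le_iff₀ (by linarith)]
      nlinarith
    have hzin : z ∈ ball (0 : ℂ) R := mem_ball_zero_iff.2 (by have := norm_nonneg z; linarith)
    have hfz : f z = deriv g z := (hgd z hzin).deriv.symm
    have hsub : ∀ w ∈ closedBall z (R / 4), ‖w‖ ≤ R / 2 := by
      intro w hw
      have h1 : ‖w - z‖ ≤ R / 4 := by simpa [dist_eq_norm] using hw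
      have h2 : ‖w‖ ≤ ‖w - z‖ + ‖z‖ := by
        have := norm_add_le (w - z) z
        simpa using this
      have h3 : ‖z‖ ≤ R / 4 := by rw [hR]; linarith
      linarith
    have hdc : DiffContOnCl ℂ g (ball z (R / 4)) := by
      refine DifferentiableOn.diffContOnCl ?_
      rw [closure_ball z (by positivity)]
      intro w hw
      exact (hgd w (mem_ball_zero_iff.2 (by have := hsub w hw; linarith))).differentiableAt.differentiableWithinAt
    have h7 := norm_deriv_le_of_forall_mem_sphere_norm_le (by positivity : 0 < R / 4) hdc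
      (fun w hw => hgb w (hsub w (sphere_subset_closedBall hw)))
    rw [hfz]
    refine h7.trans ?_
    rw [div_le_iff₀ (by positivity), hMm]
    nlinarith
  have hconst : ∀ z, f z = f 0 := fun z =>
    hfd.apply_eq_apply_of_bounded ((isBounded_iff_forall_norm_le).2 ⟨_, by
      rintro _ ⟨w, rfl⟩; exact hbd w⟩) z 0
  refine ⟨f 0, fun z => ?_⟩
  rw [← hconst z, hf]
  have := hz z
  field_simp

/-- linear independence of `v ↦ exp (j v)` -/
lemma exp_indep (S : Finset ℤ) (c : ℤ → ℂ) (h : ∀ v : ℂ, ∑ j ∈ S, c j * exp ((j : ℂ) * v) = 0) :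
    ∀ j ∈ S, c j = 0 := by
  set χ : ℤ → (Multiplicative ℂ →* ℂ) := fun j =>
    { toFun := fun v => exp ((j : ℂ) * v.toAdd)
      map_one' := by simp
      map_mul' := fun a b => by
        show exp ((j : ℂ) * (a * b).toAdd) = _
        rw [toAdd_mul, mul_add, exp_add] } with hχ
  have hinj : Function.Injective χ := by
    intro j k hjk
    have h1 : χ j (Multiplicative.ofAdd 1) = χ k (Multiplicative.ofAdd 1) := by rw [hjk]
    have h2 : exp ((j : ℂ) * 1) = exp ((k : ℂ) * 1) := h1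
    rw [mul_one, mul_one] at h2
    have h3 : Real.exp (j : ℝ) = Real.exp (k : ℝ) := by
      have h4 : ((Real.exp (j : ℝ) : ℝ) : ℂ) = ((Real.exp (k : ℝ) : ℝ) : ℂ) := by
        push_cast
        exact h2
      exact_mod_cast h4
    have h5 := Real.exp_injective h3
    exact_mod_cast h5
  have hli := (linearIndependent_monoidHom (Multiplicative ℂ) ℂ).comp χ hinj
  rw [linearIndependent_iff'] at hli
  refine hli S c ?_
  funext v
  have := h v.toAdd
  simp only [Finset.sum_apply, Pi.smul_apply, Function.comp, smul_eq_mul, Pi.zero_apply]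
  exact this

/-- linear independence over the polynomials -/
lemma poly_exp_indep (S : Finset ℤ) (R : ℤ → ℂ[X])
    (h : ∀ v : ℂ, ∑ j ∈ S, (R j).eval v * exp ((j : ℂ) * v) = 0) : ∀ j ∈ S, R j = 0 := by
  have h1 : ∀ v : ℂ, ∑ j ∈ S, C (exp ((j : ℂ) * v)) * R j = 0 := by
    intro v
    refine Polynomial.eq_zero_of_infinite_isRoot _ ?_
    have hinj : Function.Injective (fun k : ℕ => v + 2 * Real.pi * I * (k : ℂ)) := by
      intro a b hab
      have h2 : (2 * Real.pi * I : ℂ) * (a : ℂ) = 2 * Real.pi * I * (b : ℂ) := add_left_cancel hab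
      have h3 : (2 * Real.pi * I : ℂ) ≠ 0 := by
        simp [Real.pi_ne_zero]
      have h4 := mul_left_cancel₀ h3 h2
      exact_mod_cast h4
    refine (Set.infinite_range_of_injective hinj).mono ?_
    rintro _ ⟨k, rfl⟩
    show IsRoot _ _
    rw [IsRoot.def, eval_finset_sum]
    rw [← h (v + 2 * Real.pi * I * (k : ℂ))]
    refine Finset.sum_congr rfl fun j _ => ?_
    rw [eval_mul, eval_C, mul_comm]
    congr 1
    rw [mul_add, exp_add]
    have : exp ((j : ℂ) * (2 * Real.pi * I * (k : ℂ))) = 1 := by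
      rw [Complex.exp_eq_one_iff]
      exact ⟨j * k, by push_cast; ring⟩
    rw [this, mul_one]
  intro j hj
  ext m
  rw [coeff_zero]
  refine exp_indep S (fun j => (R j).coeff m) (fun v => ?_) j hj
  have h2 := congrArg (fun p => coeff p m) (h1 v)
  simp only [finset_sum_coeff, coeff_C_mul, coeff_zero] at h2
  rw [← h2]
  exact Finset.sum_congr rfl fun j _ => mul_comm _ _

theorem t_exp : S_exp := by
  intro S Q k k' hk hk' hne hQ hQ'
  by_contra hcon
  push Not at hcon
  obtain ⟨A, B, hA, hB, hgr⟩ := Psi_growth S Q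
  obtain ⟨α, hα⟩ := logderiv_const (Psi S Q) (Psi_diff S Q) hcon A B hA hB hgr
  have h1 : ∀ v : ℂ, ∑ j ∈ S, (derivative (Q j) + C ((j : ℂ) - α) * Q j).eval v *
      exp ((j : ℂ) * v) = 0 := by
    intro v
    have h2 := hα v
    rw [(Psi_hasDeriv S Q v).deriv] at h2
    unfold Psi at h2
    rw [Finset.mul_sum, ← sub_eq_zero, ← Finset.sum_sub_distrib] at h2
    rw [← h2]
    refine Finset.sum_congr rfl fun j _ => ?_
    simp only [eval_add, eval_mul, eval_C]
    ring
  have h2 := poly_exp_indep S _ h1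
  have h3 : ∀ j ∈ S, Q j ≠ 0 → (j : ℂ) = α := by
    intro j hj hQj
    by_contra hja
    have h4 := h2 j hj
    have h5 : (j : ℂ) - α ≠ 0 := sub_ne_zero.2 hja
    have h6 : C ((j : ℂ) - α) * Q j = - derivative (Q j) := by
      rw [add_comm] at h4
      exact eq_neg_of_add_eq_zero_left h4
    have h7 : (C ((j : ℂ) - α) * Q j).degree = (Q j).degree := degree_C_mul h5
    have h8 : (derivative (Q j)).degree < (Q j).degree := degree_derivative_lt hQj
    rw [h6, degree_neg] at h7
    rw [h7] at h8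
    exact lt_irrefl _ h8
  apply hne
  have h4 : (k : ℂ) = (k' : ℂ) := (h3 k hk hQ).trans (h3 k' hk' hQ').symm
  exact_mod_cast h4

end Pool.Agent.W337.EC
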